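import Mathlib

/-!
The trio of charges on one wall of a corridor: the charge `-1` at the gap `m` and the charge `+2`
at a gap `j`, summed over the gaps `j` from `m` to `b`.

The nodes of the wall are the integers `i` of a finite set `E`; the gap `j` is the one on the left
of the node `j`.  A pattern is an involution `F` of `E` without crossing, whose fixed points are
the ends of the strands which go through the corridor.  An arc has the weight `w` of the charge
under it, a through strand the weight `w` of `-1` plus the charge on its left, where `w` is the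
function of period `6` with the values `1, 0, -1, -1, 0, 1` at `0, ..., 5`; these weights are
written out in `aw` and `tw`.  The sum over `j` of the product of the weights is `1` for every
pattern with a through strand between `m` and `b` (`trio`).  `trio_ends` is the same statement for
the two walls of a corridor and the weights of all strands.
-/

namespace Full.LemX

variable {R : Type*} [CommRing R]

/-- charge of the trio in the gaps `l+1, ..., r` -/
def chg (m j l r : ℤ) : ℤ :=
  (if l < m ∧ m ≤ r then -1 else 0) + (if l < j ∧ j ≤ r then 2 else 0)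

/-- charge of the trio in the gaps up to `r` -/
def chl (m j r : ℤ) : ℤ := (if m ≤ r then -1 else 0) + (if j ≤ r then 2 else 0)

/-- weight of an arc from the node `l` to the node `r` -/
def aw (R : Type*) [CommRing R] (m j l r : ℤ) : R :=
  if l < j ∧ j ≤ r then (if l < m ∧ m ≤ r then 0 else -1) else 1

/-- weight of a through strand at the node `i` -/
def tw (R : Type*) [CommRing R] (m j i : ℤ) : R := if m ≤ i ∧ i < j then 0 else 1

/-- values of the weight -/
structure Wt (w : ℤ → R) : Prop where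
  w0 : w 0 = 1
  w1 : w 1 = 0
  w2 : w 2 = -1
  sym : ∀ s, w (-1 - s) = w s

lemma Wt.aw {w : ℤ → R} (hw : Wt w) (m j l r : ℤ) : w (chg m j l r) = aw R m j l r := by
  have h1 : w (-1) = 1 := by
    have := hw.sym 0
    rw [sub_zero] at this
    rw [this, hw.w0]
  unfold chg Full.LemX.aw
  by_cases h2 : l < j ∧ j ≤ r
  · rw [if_pos h2, if_pos h2]
    by_cases h3 : l < m ∧ m ≤ r
    · rw [if_pos h3, if_pos h3]
      exact hw.w1
    · rw [if_neg h3, if_neg h3]
      exact hw.w2
  · rw [if_neg h2, if_neg h2]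
    split_ifs
    · exact h1
    · exact hw.w0

lemma Wt.aw' {w : ℤ → R} (hw : Wt w) (m j l r : ℤ) :
    w (-1 - chg m j l r) = Full.LemX.aw R m j l r := by
  rw [hw.sym, hw.aw]

lemma Wt.tw {w : ℤ → R} (hw : Wt w) {m j : ℤ} (hmj : m ≤ j) (i : ℤ) :
    w (-1 + chl m j i) = tw R m j i := by
  have h1 : w (-1) = 1 := by
    have := hw.sym 0
    rw [sub_zero] at this
    rw [this, hw.w0]
  have h2 : w (-2) = 0 := by
    have := hw.sym 1
    norm_num at this
    rw [this, hw.w1]
  unfold chl Full.LemX.tw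
  by_cases h3 : m ≤ i
  · rw [if_pos h3]
    by_cases h4 : j ≤ i
    · rw [if_pos h4, if_neg (by omega)]
      exact hw.w0
    · rw [if_neg h4, if_pos ⟨h3, by omega⟩]
      exact h2
  · rw [if_neg h3, if_neg (by omega), if_neg (by omega)]
    exact h1

lemma Wt.tw' {w : ℤ → R} (hw : Wt w) {m j : ℤ} (hmj : m ≤ j) (i : ℤ) :
    w (-chl m j i) = Full.LemX.tw R m j i := by
  rw [← hw.tw hmj, ← hw.sym]
  congr 1
  ring

/-- the weight as a cosine: `cos (pi/3 (s + 1/2)) / cos (pi/6)` -/
theorem wt_cos : Wt (fun s : ℤ => 2 * Complex.cos ((2 * s + 1 : ℤ) * (Real.pi / 6 : ℝ)) /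
    (Real.sqrt 3 : ℝ)) := by
  have h3 : (Real.sqrt 3 : ℝ) ≠ 0 := by positivity
  refine ⟨?_, ?_, ?_, fun s => ?_⟩
  · have : (((2 * 0 + 1 : ℤ) : ℂ) * ((Real.pi / 6 : ℝ) : ℂ)) = ((Real.pi / 6 : ℝ) : ℂ) := by
      push_cast; ring
    rw [this, ← Complex.ofReal_cos, Real.cos_pi_div_six]
    push_cast
    rw [mul_div_cancel₀ _ (two_ne_zero), div_self (Complex.ofReal_ne_zero.2 h3)]
  · have : (((2 * 1 + 1 : ℤ) : ℂ) * ((Real.pi / 6 : ℝ) : ℂ)) = ((Real.pi / 2 : ℝ) : ℂ) := by
      push_cast; ring
    rw [this, ← Complex.ofReal_cos, Real.cos_pi_div_two]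
    simp
  · have : (((2 * 2 + 1 : ℤ) : ℂ) * ((Real.pi / 6 : ℝ) : ℂ)) =
        ((Real.pi - Real.pi / 6 : ℝ) : ℂ) := by
      push_cast; ring
    rw [this, ← Complex.ofReal_cos, Real.cos_pi_sub, Real.cos_pi_div_six]
    push_cast
    rw [mul_neg, mul_div_cancel₀ _ (two_ne_zero), neg_div,
      div_self (Complex.ofReal_ne_zero.2 h3)]
  · have : (((2 * (-1 - s) + 1 : ℤ) : ℂ) * ((Real.pi / 6 : ℝ) : ℂ)) =
        -(((2 * s + 1 : ℤ) : ℂ) * ((Real.pi / 6 : ℝ) : ℂ)) := by
      push_cast; ring
    simp only [this, Complex.cos_neg]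

/-- the factor of the node `i` of the wall -/
def fac (R : Type*) [CommRing R] (F : ℤ → ℤ) (m j i : ℤ) : R :=
  if F i = i then tw R m j i else if i < F i then aw R m j i (F i) else 1

/-- a non crossing pattern of the nodes of `E`; the fixed points are not under an arc -/
structure Pat (E : Finset ℤ) (F : ℤ → ℤ) : Prop where
  mem : ∀ i ∈ E, F i ∈ E
  inv : ∀ i ∈ E, F (F i) = i
  nc : ∀ i ∈ E, ∀ j ∈ E, i < j → j < F i → i < F j ∧ F j < F i ∧ F j ≠ j

variable {m b : ℤ} {E : Finset ℤ} {F : ℤ → ℤ}

/-- nodes which open an arc over the gap `g` -/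
def cov (E : Finset ℤ) (F : ℤ → ℤ) (g : ℤ) : Finset ℤ := E.filter fun i => i < g ∧ g ≤ F i

lemma mem_cov {g i : ℤ} : i ∈ cov E F g ↔ i ∈ E ∧ i < g ∧ g ≤ F i := by
  unfold cov
  rw [Finset.mem_filter]

lemma cov_open {g : ℤ} (hP : Pat E F) (h1 : g ∈ E) (h3 : g < F g) :
    cov E F (g + 1) = insert g (cov E F g) := by
  ext i
  rw [Finset.mem_insert, mem_cov, mem_cov]
  constructor
  · rintro ⟨ha, hc, hd⟩
    rcases eq_or_lt_of_le (Int.lt_add_one_iff.1 hc) with h | h
    · exact Or.inl h
    · exact Or.inr ⟨ha, h, by omega⟩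
  · rintro (rfl | ⟨ha, hc, hd⟩)
    · exact ⟨h1, by omega, by omega⟩
    · refine ⟨ha, by omega, ?_⟩
      rcases eq_or_lt_of_le hd with h | h
      · exfalso
        have := hP.inv i ha
        rw [← h] at this
        omega
      · omega

lemma cov_close {g : ℤ} (hP : Pat E F) (h1 : g ∈ E) (h3 : F g < g) :
    cov E F g = insert (F g) (cov E F (g + 1)) := by
  have hm := hP.mem g h1
  have hi := hP.inv g h1
  ext i
  rw [Finset.mem_insert, mem_cov, mem_cov]
  constructor
  · rintro ⟨ha, hc, hd⟩
    rcases eq_or_lt_of_le hd with h | h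
    · left
      rw [h, hP.inv i ha]
    · exact Or.inr ⟨ha, by omega, by omega⟩
  · rintro (rfl | ⟨ha, hc, hd⟩)
    · refine ⟨hm, h3, ?_⟩
      rw [hi]
    · refine ⟨ha, ?_, by omega⟩
      rcases eq_or_lt_of_le (Int.lt_add_one_iff.1 hc) with h | h
      · subst h
        omega
      · exact h

lemma card_flip {g : ℤ} (hP : Pat E F) (h1 : g ∈ E) (h3 : F g ≠ g) :
    (-1 : R) ^ (cov E F (g + 1)).card = - (-1 : R) ^ (cov E F g).card := by
  rcases lt_or_gt_of_ne h3 with h | h
  · have hn : F g ∉ cov E F (g + 1) := by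
      rw [mem_cov, hP.inv g h1]
      omega
    rw [cov_close hP h1 h, Finset.card_insert_of_notMem hn, pow_succ]
    ring
  · have hn : g ∉ cov E F g := by
      rw [mem_cov]
      omega
    rw [cov_open hP h1 h, Finset.card_insert_of_notMem hn, pow_succ]
    ring

/-- no arc goes over a fixed point -/
lemma cov_fix {g : ℤ} (hP : Pat E F) (hg : g ∈ E) (h3 : F g = g) : cov E F g = ∅ := by
  rw [Finset.eq_empty_iff_forall_notMem]
  intro i hi
  rw [mem_cov] at hi
  obtain ⟨ha, hc, hd⟩ := hi
  rcases eq_or_lt_of_le hd with h | h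
  · have := hP.inv i ha
    rw [← h, h3] at this
    omega
  · exact (hP.nc i ha g hg hc h).2.2 h3

/-- the value of a term which does not vanish -/
lemma term_alive {g : ℤ} (h1 : ∀ t ∈ E, m ≤ t → t < g → F t ≠ t)
    (h2 : ∀ i ∈ E, i < m → F i < g) :
    ∏ i ∈ E, fac R F m g i = (-1 : R) ^ (cov E F g).card := by
  have : ∀ i ∈ E, fac R F m g i = if i < g ∧ g ≤ F i then (-1 : R) else 1 := by
    intro i hi
    unfold fac tw aw
    by_cases hf : F i = i
    · rw [if_pos hf, if_neg (fun h => h1 i hi h.1 h.2 hf), if_neg (by omega)]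
    · rw [if_neg hf]
      by_cases hlt : i < F i
      · rw [if_pos hlt]
        by_cases h4 : i < g ∧ g ≤ F i
        · have h5 : ¬ (i < m ∧ m ≤ F i) := by
            intro h
            have := h2 i hi h.1
            omega
          rw [if_neg h5]
        · rw [if_neg h4, if_neg h4]
      · rw [if_neg hlt, if_neg (by omega)]
  rw [Finset.prod_congr rfl this]
  unfold cov
  rw [Finset.prod_ite, Finset.prod_const, Finset.prod_const_one, mul_one]

/-- a term with a through strand between the two charges vanishes -/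
lemma term_fix {g t : ℤ} (h1 : t ∈ E) (h3 : m ≤ t) (h4 : t < g)
    (h5 : F t = t) : ∏ i ∈ E, fac R F m g i = 0 := by
  refine Finset.prod_eq_zero h1 ?_
  unfold fac tw
  rw [if_pos h5, if_pos ⟨h3, h4⟩]

/-- a term with an arc over both charges vanishes -/
lemma term_cov {g i : ℤ} (h1 : i ∈ E) (h3 : i < m) (h4 : g ≤ F i)
    (hmg : m ≤ g) : ∏ i ∈ E, fac R F m g i = 0 := by
  refine Finset.prod_eq_zero h1 ?_
  unfold fac aw
  rw [if_neg (by omega), if_pos (by omega), if_pos ⟨by omega, h4⟩, if_pos ⟨h3, by omega⟩]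

/-- the partial sums -/
theorem partial_sum (hP : Pat E F) (g : ℤ) (hg : m ≤ g) (hE : ∀ i, m ≤ i → i < g → i ∈ E) :
    ((∃ t ∈ E, m ≤ t ∧ t < g ∧ F t = t) ∧
      ∑ j ∈ Finset.Icc m g, ∏ i ∈ E, fac R F m j i = 1) ∨
    ((∀ t ∈ E, m ≤ t → t < g → F t ≠ t) ∧ (∃ i ∈ E, i < m ∧ g ≤ F i) ∧
      ∑ j ∈ Finset.Icc m g, ∏ i ∈ E, fac R F m j i = 0) ∨
    ((∀ t ∈ E, m ≤ t → t < g → F t ≠ t) ∧ (∀ i ∈ E, i < m → F i < g) ∧
      ∑ j ∈ Finset.Icc m g, ∏ i ∈ E, fac R F m j i =
        if Even (cov E F g).card then 1 else 0) := by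
  induction g, hg using Int.leInduction with
  | base =>
    rw [Finset.Icc_self, Finset.sum_singleton]
    right
    have h0 : ∀ t ∈ E, m ≤ t → t < m → F t ≠ t := fun t _ h3 h4 => by omega
    by_cases hc : ∃ i ∈ E, i < m ∧ m ≤ F i
    · left
      refine ⟨h0, hc, ?_⟩
      obtain ⟨i, a1, a3, a4⟩ := hc
      exact term_cov a1 a3 a4 le_rfl
    · right
      push Not at hc
      have hc' : ∀ i ∈ E, i < m → F i < m := hc
      refine ⟨h0, hc', ?_⟩
      rw [term_alive h0 hc']
      have : cov E F m = ∅ := by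
        rw [Finset.eq_empty_iff_forall_notMem]
        intro i hi
        rw [mem_cov] at hi
        have := hc' i hi.1 hi.2.1
        omega
      rw [this]
      simp
  | succ g hg ih =>
    have ih := ih fun i h1 h2 => hE i h1 (by omega)
    have hgE : g ∈ E := hE g hg (by omega)
    have hI : Finset.Icc m (g + 1) = insert (g + 1) (Finset.Icc m g) := by
      ext x
      rw [Finset.mem_insert, Finset.mem_Icc, Finset.mem_Icc]
      omega
    have hs : ∑ j ∈ Finset.Icc m (g + 1), ∏ i ∈ E, fac R F m j i =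
        ∏ i ∈ E, fac R F m (g + 1) i +
          ∑ j ∈ Finset.Icc m g, ∏ i ∈ E, fac R F m j i := by
      rw [hI, Finset.sum_insert (by rw [Finset.mem_Icc]; omega)]
    rw [hs]
    rcases ih with ⟨⟨t, a1, a3, a4, a5⟩, h⟩ | ⟨h0, ⟨i, a1, a3, a4⟩, h⟩ | ⟨h0, hc, h⟩
    · left
      refine ⟨⟨t, a1, a3, by omega, a5⟩, ?_⟩
      rw [h, term_fix a1 a3 (by omega : t < g + 1) a5, zero_add]
    · right
      have hFg : F g ≠ g := by
        intro hf
        have := cov_fix hP hgE hf
        rw [Finset.eq_empty_iff_forall_notMem] at this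
        exact this i (mem_cov.2 ⟨a1, by omega, a4⟩)
      have h0' : ∀ t ∈ E, m ≤ t → t < g + 1 → F t ≠ t := by
        intro t b1 b3 b4
        rcases eq_or_lt_of_le (Int.lt_add_one_iff.1 b4) with h | h
        · rw [h]; exact hFg
        · exact h0 t b1 b3 h
      by_cases hc : ∃ i ∈ E, i < m ∧ g + 1 ≤ F i
      · left
        refine ⟨h0', hc, ?_⟩
        obtain ⟨i, a1, a3, a4⟩ := hc
        rw [h, term_cov a1 a3 a4 (by omega), zero_add]
      · right
        push Not at hc
        refine ⟨h0', hc, ?_⟩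
        rw [term_alive h0' hc, h]
        have hig : F i = g := by
          have := hc i a1 a3
          omega
        have : cov E F (g + 1) = ∅ := by
          rw [Finset.eq_empty_iff_forall_notMem]
          intro k hk
          rw [mem_cov] at hk
          obtain ⟨c1, c3, c4⟩ := hk
          by_cases hkm : k < m
          · have := hc k c1 hkm
            omega
          · have hki : i < k := by omega
            have hkg : k < F i := by
              rw [hig]
              rcases eq_or_lt_of_le (Int.lt_add_one_iff.1 c3) with h | h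
              · exfalso
                have := hP.inv i a1
                rw [hig, ← h] at this
                omega
              · exact h
            have := (hP.nc i a1 k c1 hki hkg).2.1
            omega
        rw [this]
        simp
    · by_cases hf : F g = g
      · left
        refine ⟨⟨g, hgE, hg, by omega, hf⟩, ?_⟩
        rw [h, term_fix hgE hg (by omega : g < g + 1) hf, zero_add, cov_fix hP hgE hf]
        simp
      · right; right
        have h0' : ∀ t ∈ E, m ≤ t → t < g + 1 → F t ≠ t := by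
          intro t b1 b3 b4
          rcases eq_or_lt_of_le (Int.lt_add_one_iff.1 b4) with h | h
          · rw [h]; exact hf
          · exact h0 t b1 b3 h
        have hc' : ∀ i ∈ E, i < m → F i < g + 1 := fun i b1 b3 => (hc i b1 b3).trans (by omega)
        refine ⟨h0', hc', ?_⟩
        rw [term_alive h0' hc', h, card_flip hP hgE hf]
        have hpar : Even (cov E F (g + 1)).card ↔ ¬ Even (cov E F g).card := by
          have := card_flip (R := ℤ) hP hgE hf
          rcases Nat.even_or_odd (cov E F g).card with he | he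
          · rw [he.neg_one_pow] at this
            have h2 : ¬ Even (cov E F (g + 1)).card := by
              intro h3
              rw [h3.neg_one_pow] at this
              norm_num at this
            simp [he, h2]
          · rw [he.neg_one_pow] at this
            have h1 : ¬ Even (cov E F g).card := Nat.not_even_iff_odd.2 he
            have h2 : Even (cov E F (g + 1)).card := by
              by_contra h3
              rw [(Nat.not_even_iff_odd.1 h3).neg_one_pow] at this
              norm_num at this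
            simp [h1, h2]
        by_cases he : Even (cov E F g).card
        · rw [if_pos he, if_neg (by rw [hpar]; exact not_not.2 he), he.neg_one_pow]
          ring
        · rw [if_neg he, if_pos (hpar.2 he), (Nat.not_even_iff_odd.1 he).neg_one_pow]
          ring

/-- **the trio lemma**: `t` is a through strand between `m` and `b` -/
theorem trio (hP : Pat E F) {t : ℤ} (ht : t ∈ E) (hFt : F t = t) (hmt : m ≤ t) (htb : t ≤ b)
    (hE : ∀ i, m ≤ i → i < t → i ∈ E) :
    ∑ j ∈ Finset.Icc m b, ∏ i ∈ E, fac R F m j i = 1 := by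
  have key : ∑ j ∈ Finset.Icc m t, ∏ i ∈ E, fac R F m j i = 1 := by
    rcases partial_sum (R := R) hP t hmt hE with ⟨_, h⟩ | ⟨h0, ⟨i, a1, a3, a4⟩, h⟩ | ⟨h0, hc, h⟩
    · exact h
    · exfalso
      have := cov_fix hP ht hFt
      rw [Finset.eq_empty_iff_forall_notMem] at this
      exact this i (mem_cov.2 ⟨a1, by omega, a4⟩)
    · rw [h, cov_fix hP ht hFt]
      simp
  rw [← key]
  symm
  refine Finset.sum_subset (Finset.Icc_subset_Icc_right htb) fun j hj hj' => ?_
  rw [Finset.mem_Icc] at hj hj'
  exact term_fix ht hmt (by omega) hFt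

/-! ### The same for a set of ends -/

section ends

variable {α κ : Type*}

open Classical in
/-- a product over one end of every strand does not depend on the choice of the ends -/
lemma prod_sel (S : Finset α) {o : α → α} (ho : ∀ e ∈ S, o e ∈ S ∧ o (o e) = e)
    {P Q : α → Prop} (hP : ∀ e ∈ S, P (o e) ↔ ¬ P e) (hQ : ∀ e ∈ S, Q (o e) ↔ ¬ Q e)
    {W : α → R} (hW : ∀ e ∈ S, W (o e) = W e) :
    ∏ e ∈ S.filter P, W e = ∏ e ∈ S.filter Q, W e := by
  rw [← Finset.prod_filter_mul_prod_filter_not (S.filter P) Q,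
    ← Finset.prod_filter_mul_prod_filter_not (S.filter Q) P]
  congr 1
  · rw [Finset.filter_filter, Finset.filter_filter]
    refine Finset.prod_congr (Finset.filter_congr fun e _ => and_comm) fun _ _ => rfl
  · refine Finset.prod_bij' (fun e _ => o e) (fun e _ => o e) ?_ ?_ ?_ ?_ ?_
    · intro e he
      rw [Finset.mem_filter, Finset.mem_filter] at he ⊢
      obtain ⟨⟨h1, h2⟩, h3⟩ := he
      exact ⟨⟨(ho e h1).1, (hQ e h1).2 h3⟩, fun h => (hP e h1).1 h h2⟩
    · intro e he
      rw [Finset.mem_filter, Finset.mem_filter] at he ⊢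
      obtain ⟨⟨h1, h2⟩, h3⟩ := he
      exact ⟨⟨(ho e h1).1, (hP e h1).2 h3⟩, fun h => (hQ e h1).1 h h2⟩
    · intro e he
      rw [Finset.mem_filter, Finset.mem_filter] at he
      exact (ho e he.1.1).2
    · intro e he
      rw [Finset.mem_filter, Finset.mem_filter] at he
      exact (ho e he.1.1).2
    · intro e he
      rw [Finset.mem_filter, Finset.mem_filter] at he
      exact (hW e he.1.1).symm

/-- the ends of the corridor: `S` all ends, `o` the other end, `top` the ends on the wall with the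
trio, `pos` their nodes -/
structure Ends (S : Finset α) (o : α → α) (top : α → Prop) (pos : α → ℤ) : Prop where
  mem : ∀ e ∈ S, o e ∈ S
  inv : ∀ e ∈ S, o (o e) = e
  ne : ∀ e ∈ S, o e ≠ e
  inj : ∀ e ∈ S, ∀ e' ∈ S, top e → top e' → pos e = pos e' → e = e'
  nc : ∀ e ∈ S, ∀ e' ∈ S, top e → top (o e) → top e' → pos e < pos e' → pos e' < pos (o e) →
    top (o e') ∧ pos e < pos (o e') ∧ pos (o e') < pos (o e)

variable {S : Finset α} {o : α → α} {top : α → Prop} {pos : α → ℤ}

lemma Ends.ne_pos (hE : Ends S o top pos) {e : α} (he : e ∈ S) (h1 : top e)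
    (h2 : top (o e)) : pos (o e) ≠ pos e := fun h =>
  hE.ne e he (hE.inj _ (hE.mem e he) e he h2 h1 h)

open Classical in
/-- **the trio lemma for a set of ends**: `m`, `j` are gaps of the wall with the trio, `t₀` a
through strand between `m` and `b`, `ord` any order of the ends (used to pick one end of every
strand) -/
theorem trio_ends [LinearOrder κ] (hE : Ends S o top pos) {ord : α → κ}
    (hord : ∀ e ∈ S, ord (o e) ≠ ord e) {W : ℤ → α → R}
    (hsym : ∀ j, ∀ e ∈ S, W j (o e) = W j e)
    (htt : ∀ j, m ≤ j → j ≤ b → ∀ e ∈ S, top e → top (o e) → pos e < pos (o e) →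
      W j e = aw R m j (pos e) (pos (o e)))
    (hth : ∀ j, m ≤ j → j ≤ b → ∀ e ∈ S, top e → ¬ top (o e) → W j e = tw R m j (pos e))
    (hbb : ∀ j, m ≤ j → j ≤ b → ∀ e ∈ S, ¬ top e → ¬ top (o e) → W j e = 1)
    {t₀ : α} (ht₀ : t₀ ∈ S) (htop : top t₀) (hbot : ¬ top (o t₀)) (hmt : m ≤ pos t₀)
    (htb : pos t₀ ≤ b) (hfull : ∀ i, m ≤ i → i < pos t₀ → ∃ e ∈ S, top e ∧ pos e = i) :
    ∑ j ∈ Finset.Icc m b, ∏ e ∈ S.filter (fun e => ord e < ord (o e)), W j e = 1 := by
  -- the end at a node
  set x : ℤ → α := fun i => if h : ∃ e ∈ S, top e ∧ pos e = i then h.choose else t₀ with hx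
  have hxe : ∀ e ∈ S, top e → x (pos e) = e := by
    intro e he ht
    have h : ∃ e' ∈ S, top e' ∧ pos e' = pos e := ⟨e, he, ht, rfl⟩
    rw [hx]
    simp only
    rw [dif_pos h]
    exact hE.inj _ h.choose_spec.1 e he h.choose_spec.2.1 ht h.choose_spec.2.2
  set E : Finset ℤ := (S.filter top).image pos with hEdef
  have hmE : ∀ i, i ∈ E ↔ ∃ e ∈ S, top e ∧ pos e = i := by
    intro i
    rw [hEdef, Finset.mem_image]
    constructor
    · rintro ⟨e, he, h⟩
      rw [Finset.mem_filter] at he
      exact ⟨e, he.1, he.2, h⟩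
    · rintro ⟨e, h1, h2, h3⟩
      exact ⟨e, Finset.mem_filter.2 ⟨h1, h2⟩, h3⟩
  set F : ℤ → ℤ := fun i => if top (o (x i)) then pos (o (x i)) else i with hF
  have hFt : ∀ e ∈ S, top e → top (o e) → F (pos e) = pos (o e) := by
    intro e he h1 h2
    rw [hF]
    simp only
    rw [hxe e he h1, if_pos h2]
  have hFn : ∀ e ∈ S, top e → ¬ top (o e) → F (pos e) = pos e := by
    intro e he h1 h2
    rw [hF]
    simp only
    rw [hxe e he h1, if_neg h2]
  have hP : Pat E F := by
    refine ⟨fun i hi => ?_, fun i hi => ?_, fun i hi j hj h1 h2 => ?_⟩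
    · obtain ⟨e, he, ht, rfl⟩ := (hmE i).1 hi
      by_cases h : top (o e)
      · rw [hFt e he ht h]
        exact (hmE _).2 ⟨o e, hE.mem e he, h, rfl⟩
      · rw [hFn e he ht h]
        exact hi
    · obtain ⟨e, he, ht, rfl⟩ := (hmE i).1 hi
      by_cases h : top (o e)
      · rw [hFt e he ht h, hFt _ (hE.mem e he) h (by rw [hE.inv e he]; exact ht), hE.inv e he]
      · rw [hFn e he ht h, hFn e he ht h]
    · obtain ⟨e, he, ht, rfl⟩ := (hmE i).1 hi
      obtain ⟨e', he', ht', rfl⟩ := (hmE j).1 hj
      by_cases h : top (o e)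
      · rw [hFt e he ht h] at h2 ⊢
        obtain ⟨a, b, c⟩ := hE.nc e he e' he' ht h ht' h1 h2
        rw [hFt e' he' ht' a]
        exact ⟨b, c, hE.ne_pos he' ht' a⟩
      · rw [hFn e he ht h] at h2
        omega
  have hmain := trio (R := R) (m := m) (b := b) hP ((hmE _).2 ⟨t₀, ht₀, htop, rfl⟩)
    (hFn t₀ ht₀ htop hbot) hmt htb (fun i h1 h2 => (hmE i).2 (hfull i h1 h2))
  rw [← hmain]
  refine Finset.sum_congr rfl fun j hj => ?_
  rw [Finset.mem_Icc] at hj
  have ho : ∀ e ∈ S, o e ∈ S ∧ o (o e) = e := fun e he => ⟨hE.mem e he, hE.inv e he⟩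
  set Q : α → Prop := fun e => (top e ∧ ¬ top (o e)) ∨ (top e ∧ top (o e) ∧ pos e < pos (o e)) ∨
    (¬ top e ∧ ¬ top (o e) ∧ ord e < ord (o e)) with hQdef
  have hQ : ∀ e ∈ S, Q (o e) ↔ ¬ Q e := by
    intro e he
    have h1 := hE.inv e he
    rw [hQdef]
    simp only [h1]
    by_cases ht : top e <;> by_cases hto : top (o e)
    · have := hE.ne_pos he ht hto
      simp only [ht, hto, true_and, not_true_eq_false, false_and, or_false, false_or, and_false,
        not_lt]
      constructor
      · intro h; exact h.le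
      · intro h; exact lt_of_le_of_ne h this
    · simp [ht, hto]
    · simp [ht, hto]
    · have := hord e he
      simp only [ht, hto, not_false_eq_true, true_and, false_and, and_false, false_or, not_lt]
      constructor
      · intro h; exact h.le
      · intro h; exact lt_of_le_of_ne h this
  have hPP : ∀ e ∈ S, ord (o e) < ord (o (o e)) ↔ ¬ ord e < ord (o e) := by
    intro e he
    rw [hE.inv e he, not_lt]
    exact ⟨fun h => h.le, fun h => lt_of_le_of_ne h (hord e he)⟩
  have hsel : ∏ e ∈ S.filter (fun e => ord e < ord (o e)), W j e = ∏ e ∈ S.filter Q, W j e := by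
    have := prod_sel S ho (P := fun e => ord e < ord (o e)) hPP hQ (hsym j)
    convert this
  rw [hsel]
  rw [← Finset.prod_filter_mul_prod_filter_not (S.filter Q) top]
  have h2 : ∏ e ∈ (S.filter Q).filter (fun e => ¬ top e), W j e = 1 := by
    refine Finset.prod_eq_one fun e he => ?_
    rw [Finset.mem_filter, Finset.mem_filter] at he
    obtain ⟨⟨h1, h2⟩, h3⟩ := he
    rw [hQdef] at h2
    rcases h2 with h | h | h
    · exact absurd h.1 h3
    · exact absurd h.1 h3
    · exact hbb j hj.1 hj.2 e h1 h.1 h.2.1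
  rw [h2, mul_one]
  have h3 : ∀ i ∈ E, fac R F m j i = if Q (x i) then W j (x i) else 1 := by
    intro i hi
    obtain ⟨e, he, ht, rfl⟩ := (hmE i).1 hi
    rw [hxe e he ht]
    unfold fac
    by_cases hto : top (o e)
    · rw [hFt e he ht hto, if_neg (hE.ne_pos he ht hto)]
      by_cases hlt : pos e < pos (o e)
      · rw [if_pos hlt, if_pos (Or.inr (Or.inl ⟨ht, hto, hlt⟩)),
          htt j hj.1 hj.2 _ he ht hto hlt]
      · rw [if_neg hlt, if_neg]
        rintro (h | h | h)
        · exact h.2 hto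
        · exact hlt h.2.2
        · exact h.1 ht
    · rw [hFn e he ht hto, if_pos rfl, if_pos (Or.inl ⟨ht, hto⟩), hth j hj.1 hj.2 _ he ht hto]
  rw [Finset.prod_congr rfl h3, ← Finset.prod_filter]
  symm
  refine Finset.prod_bij' (fun i _ => x i) (fun e _ => pos e) ?_ ?_ ?_ ?_ ?_
  · intro i hi
    rw [Finset.mem_filter] at hi
    obtain ⟨e, he, ht, rfl⟩ := (hmE i).1 hi.1
    rw [hxe e he ht] at hi ⊢
    rw [Finset.mem_filter, Finset.mem_filter]
    exact ⟨⟨he, hi.2⟩, ht⟩
  · intro e he
    rw [Finset.mem_filter, Finset.mem_filter] at he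
    rw [Finset.mem_filter, hxe e he.1.1 he.2]
    exact ⟨(hmE _).2 ⟨e, he.1.1, he.2, rfl⟩, he.1.2⟩
  · intro i hi
    rw [Finset.mem_filter] at hi
    obtain ⟨e, he, ht, rfl⟩ := (hmE i).1 hi.1
    rw [hxe e he ht]
  · intro e he
    rw [Finset.mem_filter, Finset.mem_filter] at he
    exact hxe e he.1.1 he.2
  · intro i _
    rfl

end ends

end Full.LemX
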